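import Pool.Agent.MP_b1d139_an.Desc

namespace Pool.Agent.Results.MP_b1d139_an.AnalyticComplete

open Pool.Agent.MP_b1d139_an

/-- A subset of a Polish space is analytic exactly when it is the preimage of `B_{ℵ₀}` under a
Borel map to `ℝ`: the set `B_{ℵ₀}` is a complete analytic set. -/
theorem result (X : Type) [TopologicalSpace X] [PolishSpace X] [MeasurableSpace X] [BorelSpace X]
    (A : Set X) :
    MeasureTheory.AnalyticSet A ↔ ∃ f : X → ℝ, Measurable f ∧ A = f ⁻¹' BAleph0 :=
  complete A

end Pool.Agent.Results.MP_b1d139_an.AnalyticComplete
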