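import Pool.Agent.MP_b1d139_an.CoreB

namespace Pool.Agent.Results.MP_b1d139_an.ClosureGap

open Pool.Agent.MP_b1d139_an

/-- The points of `(1, 2)` that lie in the closure of `B_{ℵ₀}` but not in `B_{ℵ₀}` form a set of
positive Hausdorff dimension. -/
theorem result : 0 < dimH ((closure BAleph0 ∩ Set.Ioo 1 2) \ BAleph0) := main

end Pool.Agent.Results.MP_b1d139_an.ClosureGap
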